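import Pool.Agent.Q187.PS.Stm

set_option autoImplicit false

open MeasureTheory Set Filter Topology Metric
open scoped ENNReal NNReal

namespace Pool.Agent.Q298.PS

open Q187.PS

theorem beta_meas {ν : Measure ℝ} {β : ℝ → ℝ} (h : Spread ν β) : Measurable β := by
  have h1 : LipschitzWith 1 β := by
    refine LipschitzWith.of_dist_le_mul fun x y => ?_
    rw [Real.dist_eq, Real.dist_eq, NNReal.coe_one, one_mul]
    exact h.lip x y
  exact h1.continuous.measurable

/-- The coordinates of the plane. -/
theorem coord_mp : MeasurePreserving (fun v : V2 => (v 0, v 1)) volume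
    (volume.prod volume : Measure (ℝ × ℝ)) :=
  (volume_preserving_finTwoArrow ℝ).comp (PiLp.volume_preserving_ofLp (Fin 2))

/-- Areas in the plane in terms of the measure `volume + ν`. -/
theorem area_map {ν : Measure ℝ} {β : ℝ → ℝ} (hD : Dig ν) (h : Spread ν β) (B : Set (ℝ × ℝ))
    (hB : MeasurableSet B) :
    volume {v : V2 | (β (v 0), β (v 1)) ∈ B}
      = ((volume : Measure ℝ).prod volume) B + (Measure.prod volume ν) B
        + ((ν.prod volume) B + (ν.prod ν) B) := by
  have := hD.prob
  have hm := beta_meas h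
  have h1 : {v : V2 | (β (v 0), β (v 1)) ∈ B}
      = (fun v : V2 => (v 0, v 1)) ⁻¹' ((Prod.map β β) ⁻¹' B) := rfl
  rw [h1, coord_mp.measure_preimage ((hm.prodMap hm) hB).nullMeasurableSet,
    ← Measure.map_apply (hm.prodMap hm) hB, ← Measure.map_prod_map _ _ hm hm, h.map,
    Measure.prod_add, Measure.add_prod, Measure.add_prod]
  simp only [Measure.add_apply]
  ring

theorem vol_abs (a b : ℝ) (hab : a ≤ b) :
    volume {y : ℝ | a < |y| ∧ |y| ≤ b} ≤ ENNReal.ofReal (2 * (b - a)) := by
  have hsub : {y : ℝ | a < |y| ∧ |y| ≤ b} ⊆ Ico (-b) (-a) ∪ Ioc a b := by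
    rintro y ⟨h1, h2⟩
    rcases le_or_gt 0 y with h | h
    · rw [abs_of_nonneg h] at h1 h2
      right
      exact ⟨h1, h2⟩
    · rw [abs_of_neg h] at h1 h2
      left
      exact ⟨by linarith, by linarith⟩
  refine (measure_mono hsub).trans ((measure_union_le _ _).trans ?_)
  rw [Real.volume_Ico, Real.volume_Ioc, ← ENNReal.ofReal_add (by linarith) (by linarith)]
  apply ENNReal.ofReal_le_ofReal
  linarith

theorem lin_meas : Measurable (fun p : ℝ × ℝ => 2 * |p.1| + |p.2|) := by
  have h1 : Measurable (fun p : ℝ × ℝ => |p.1|) := measurable_fst.abs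
  have h2 : Measurable (fun p : ℝ × ℝ => |p.2|) := measurable_snd.abs
  exact (h1.const_mul 2).add h2

/-- The areas of the level strips. -/
theorem area (h_sum : S_Sum) : S_Area := by
  intro ν β hD hS
  have := hD.prob
  refine ⟨?_, ?_, ?_⟩
  · intro s t hs hst
    set B : Set (ℝ × ℝ) := {p | s < 2 * |p.1| + |p.2| ∧ 2 * |p.1| + |p.2| ≤ t} with hB
    have hBm : MeasurableSet B :=
      (measurableSet_lt measurable_const lin_meas).inter (measurableSet_le lin_meas measurable_const)
    have e0 : {v : V2 | s < HH β v ∧ HH β v ≤ t} = {v : V2 | (β (v 0), β (v 1)) ∈ B} := rfl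
    rw [e0, area_map hD hS B hBm]
    have hsec : ∀ x : ℝ, volume (Prod.mk x ⁻¹' B) ≤ ENNReal.ofReal (2 * (t - s)) := by
      intro x
      have h1 : Prod.mk x ⁻¹' B = {y : ℝ | s - 2 * |x| < |y| ∧ |y| ≤ t - 2 * |x|} := by
        ext y
        simp only [hB, mem_preimage, mem_ofPred_eq]
        constructor <;> rintro ⟨h1, h2⟩ <;> constructor <;> linarith
      rw [h1]
      refine (vol_abs _ _ (by linarith)).trans ?_
      apply ENNReal.ofReal_le_ofReal
      linarith
    have hvv : ((volume : Measure ℝ).prod volume) B ≤ ENNReal.ofReal (2 * t * (t - s)) := by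
      rw [Measure.prod_apply hBm]
      have hb : ∀ x : ℝ, volume (Prod.mk x ⁻¹' B)
          ≤ (Icc (-(t / 2)) (t / 2)).indicator (fun _ => ENNReal.ofReal (2 * (t - s))) x := by
        intro x
        by_cases hx : x ∈ Icc (-(t / 2)) (t / 2)
        · rw [indicator_of_mem hx]
          exact hsec x
        · rw [indicator_of_notMem hx]
          have h1 : Prod.mk x ⁻¹' B = ∅ := by
            ext y
            simp only [hB, mem_preimage, mem_ofPred_eq, mem_empty_iff_false, iff_false]
            rintro ⟨-, h2⟩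
            apply hx
            have h3 : 0 ≤ |y| := abs_nonneg y
            have h4 : |x| ≤ t / 2 := by linarith
            exact abs_le.mp h4
          rw [h1, measure_empty]
      refine (lintegral_mono hb).trans ?_
      rw [lintegral_indicator measurableSet_Icc, lintegral_const, Measure.restrict_apply_univ,
        Real.volume_Icc, ← ENNReal.ofReal_mul (by linarith)]
      apply ENNReal.ofReal_le_ofReal
      have : 2 * (t - s) * (t / 2 - -(t / 2)) = 2 * t * (t - s) := by ring
      rw [this]
    have hvn : (Measure.prod volume ν) B ≤ ENNReal.ofReal (t - s) := by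
      rw [Measure.prod_apply_symm hBm]
      have hb : ∀ y : ℝ, volume ((fun x => (x, y)) ⁻¹' B) ≤ ENNReal.ofReal (t - s) := by
        intro y
        have h1 : (fun x => (x, y)) ⁻¹' B
            = {x : ℝ | (s - |y|) / 2 < |x| ∧ |x| ≤ (t - |y|) / 2} := by
          ext x
          simp only [hB, mem_preimage, mem_ofPred_eq]
          constructor <;> rintro ⟨h1, h2⟩ <;> constructor <;> linarith
        rw [h1]
        refine (vol_abs _ _ (by linarith)).trans ?_
        apply ENNReal.ofReal_le_ofReal
        linarith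
      refine (lintegral_mono hb).trans ?_
      rw [lintegral_const, measure_univ, mul_one]
    have hnv : (ν.prod volume) B ≤ ENNReal.ofReal (2 * (t - s)) := by
      rw [Measure.prod_apply hBm]
      refine (lintegral_mono hsec).trans ?_
      rw [lintegral_const, measure_univ, mul_one]
    have hnn : (ν.prod ν) B ≤ ENNReal.ofReal (t - s) := by
      refine le_trans ?_ ((h_sum ν hD).1 s t hst)
      apply measure_mono_ae
      have h1 : ∀ᵐ x ∂ν, x ∈ Icc (0 : ℝ) (1 / 3) := hD.supp
      have h2 : ∀ᵐ p ∂(ν.prod ν), p.1 ∈ Icc (0 : ℝ) (1 / 3) :=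
        Measure.quasiMeasurePreserving_fst.ae h1
      have h3 : ∀ᵐ p ∂(ν.prod ν), p.2 ∈ Icc (0 : ℝ) (1 / 3) :=
        Measure.quasiMeasurePreserving_snd.ae h1
      filter_upwards [h2, h3] with p hp1 hp2 hp
      have h4 : s < 2 * |p.1| + |p.2| ∧ 2 * |p.1| + |p.2| ≤ t := hp
      rw [abs_of_nonneg hp1.1, abs_of_nonneg hp2.1] at h4
      exact h4
    refine (add_le_add (add_le_add hvv hvn) (add_le_add hnv hnn)).trans ?_
    rw [← ENNReal.ofReal_add (by nlinarith) (by linarith),
      ← ENNReal.ofReal_add (by linarith) (by linarith),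
      ← ENNReal.ofReal_add (by nlinarith) (by linarith)]
    apply ENNReal.ofReal_le_ofReal
    apply le_of_eq
    ring
  · apply Set.Subsingleton.measure_zero
    have key : ∀ v : V2, HH β v ≤ 0 → β (v 0) = 0 ∧ β (v 1) = 0 := by
      intro v hv
      have h1 : 2 * |β (v 0)| + |β (v 1)| ≤ 0 := hv
      have h2 := abs_nonneg (β (v 0))
      have h3 := abs_nonneg (β (v 1))
      exact ⟨abs_nonpos_iff.mp (by linarith), abs_nonpos_iff.mp (by linarith)⟩
    intro v hv w hw
    have h1 := key v hv
    have h2 := key w hw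
    ext i
    fin_cases i
    · exact hS.inj (h1.1.trans h2.1.symm)
    · exact hS.inj (h1.2.trans h2.2.symm)
  · set B : Set (ℝ × ℝ) := {p | 2 * |p.1| + |p.2| ≤ 16} with hB
    have hBm : MeasurableSet B := measurableSet_le lin_meas measurable_const
    have e0 : {v : V2 | HH β v ≤ 16} = {v : V2 | (β (v 0), β (v 1)) ∈ B} := rfl
    rw [e0, area_map hD hS B hBm]
    have hsub : Icc (-4 : ℝ) 4 ×ˢ Icc (-8 : ℝ) 8 ⊆ B := by
      rintro ⟨x, y⟩ ⟨hx, hy⟩
      have h1 : |x| ≤ 4 := abs_le.mpr hx
      have h2 : |y| ≤ 8 := abs_le.mpr hy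
      show 2 * |x| + |y| ≤ 16
      linarith
    have h1 : ENNReal.ofReal (18 * Real.pi) ≤ ((volume : Measure ℝ).prod volume) B := by
      refine le_trans ?_ (measure_mono hsub)
      rw [Measure.prod_prod, Real.volume_Icc, Real.volume_Icc,
        ← ENNReal.ofReal_mul (by norm_num)]
      apply ENNReal.ofReal_le_ofReal
      have := Real.pi_lt_four
      linarith
    exact h1.trans (by rw [add_assoc]; exact le_self_add)

end Pool.Agent.Q298.PS
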