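import Pool.Agent.Q187.PS.Stm

set_option autoImplicit false

open MeasureTheory Set Filter Topology Metric
open scoped ENNReal NNReal

namespace Pool.Agent.Q298.PS

open Q187.PS

/-- The binary digits. -/
noncomputable def bit (n : ℕ) (t : ℝ) : ℝ := ((⌊2 ^ (n + 1) * t⌋ % 2 : ℤ) : ℝ)

/-- The number with the base four digits given by the binary digits of `t`. -/
noncomputable def four (t : ℝ) : ℝ := ∑' n, bit n t * (1 / 4) ^ (n + 1)

theorem bit_nonneg (n : ℕ) (t : ℝ) : 0 ≤ bit n t := by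
  unfold bit
  exact_mod_cast Int.emod_nonneg _ (by norm_num)

theorem bit_le (n : ℕ) (t : ℝ) : bit n t ≤ 1 := by
  unfold bit
  have h : ⌊2 ^ (n + 1) * t⌋ % 2 < 2 := Int.emod_lt_of_pos _ (by norm_num)
  have h2 : ⌊2 ^ (n + 1) * t⌋ % 2 ≤ 1 := by omega
  exact_mod_cast h2

theorem sum_geo : HasSum (fun n : ℕ => (1 / 4 : ℝ) ^ (n + 1)) (1 / 3) := by
  have h := (hasSum_geometric_of_lt_one (r := (1 / 4 : ℝ)) (by norm_num) (by norm_num)).mul_left
    (1 / 4)
  have h2 : (1 / 4 : ℝ) * (1 - 1 / 4)⁻¹ = 1 / 3 := by norm_num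
  rw [h2] at h
  refine h.congr_fun ?_
  intro n
  rw [pow_succ']

theorem summ (t : ℝ) : Summable (fun n : ℕ => bit n t * (1 / 4 : ℝ) ^ (n + 1)) := by
  refine Summable.of_nonneg_of_le (fun n => mul_nonneg (bit_nonneg n t) (by positivity))
    (fun n => ?_) sum_geo.summable
  exact mul_le_of_le_one_left (by positivity) (bit_le n t)

theorem four_nonneg (t : ℝ) : 0 ≤ four t :=
  tsum_nonneg fun n => mul_nonneg (bit_nonneg n t) (by positivity)

theorem four_le (t : ℝ) : four t ≤ 1 / 3 := by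
  rw [← sum_geo.tsum_eq]
  exact (summ t).tsum_le_tsum (fun n => mul_le_of_le_one_left (by positivity) (bit_le n t))
    sum_geo.summable

theorem bit_meas (n : ℕ) : Measurable (bit n) := by
  unfold bit
  have h1 : Measurable (fun t : ℝ => ⌊2 ^ (n + 1) * t⌋) := (measurable_const_mul _).floor
  exact (measurable_from_top (f := fun k : ℤ => ((k % 2 : ℤ) : ℝ))).comp h1

theorem four_meas : Measurable four := by
  refine measurable_of_tendsto_metrizable (f := fun (N : ℕ) (t : ℝ) =>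
    ∑ n ∈ Finset.range N, bit n t * (1 / 4) ^ (n + 1)) (fun N => ?_) ?_
  · exact Finset.measurable_fun_sum _ fun n _ => (bit_meas n).mul_const _
  · rw [tendsto_pi_nhds]
    intro t
    exact (summ t).hasSum.tendsto_sum_nat

theorem four_half (t : ℝ) (ht : t ∈ Ico (0 : ℝ) 1) (b : ℤ) (hb : b = 0 ∨ b = 1) :
    four ((t + b) / 2) = (four t + b) / 4 := by
  have h0 : bit 0 ((t + b) / 2) = b := by
    unfold bit
    have e1 : (2 : ℝ) ^ (0 + 1) * ((t + b) / 2) = t + b := by ring
    rw [e1, Int.floor_add_intCast, Int.floor_eq_zero_iff.mpr ht]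
    rcases hb with rfl | rfl <;> norm_num
  have h1 : ∀ n, bit (n + 1) ((t + b) / 2) = bit n t := by
    intro n
    unfold bit
    have e1 : (2 : ℝ) ^ (n + 1 + 1) * ((t + b) / 2)
        = 2 ^ (n + 1) * t + (((2 : ℤ) * (2 ^ n * b) : ℤ) : ℝ) := by
      push_cast; ring
    rw [e1, Int.floor_add_intCast, Int.add_mul_emod_self_left]
  unfold four
  rw [(summ ((t + b) / 2)).tsum_eq_zero_add, h0]
  simp only [h1]
  have e2 : ∀ n : ℕ, bit n t * (1 / 4 : ℝ) ^ (n + 1 + 1) = (1 / 4) * (bit n t * (1 / 4) ^ (n + 1)) := by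
    intro n; ring
  simp only [e2]
  rw [tsum_mul_left]
  ring

theorem vol_affine (a b : ℝ) (ha : a ≠ 0) (S : Set ℝ) :
    volume {x : ℝ | a * x - b ∈ S} = ENNReal.ofReal |a⁻¹| * volume S := by
  have h1 : {x : ℝ | a * x - b ∈ S} = (fun x => a * x) ⁻¹' ((fun y => y + (-b)) ⁻¹' S) := rfl
  rw [h1, Real.volume_preimage_mul_left ha, measure_preimage_add_right]

theorem half_part (A : Set ℝ) (b : ℤ) (hb : b = 0 ∨ b = 1) :
    volume (four ⁻¹' A ∩ Ico ((b : ℝ) / 2) ((b + 1) / 2))
      = 2⁻¹ * volume ({t | (four t + b) / 4 ∈ A} ∩ Ico (0 : ℝ) 1) := by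
  have h1 : four ⁻¹' A ∩ Ico ((b : ℝ) / 2) ((b + 1) / 2)
      = {x : ℝ | 2 * x - b ∈ ({t | (four t + b) / 4 ∈ A} ∩ Ico (0 : ℝ) 1)} := by
    ext x
    constructor
    · rintro ⟨h2, h3⟩
      have h4 : 2 * x - b ∈ Ico (0 : ℝ) 1 := by
        rw [mem_Ico] at h3 ⊢
        constructor <;> linarith [h3.1, h3.2]
      refine ⟨?_, h4⟩
      have h5 := four_half _ h4 b hb
      rw [show (2 * x - (b : ℝ) + b) / 2 = x by ring] at h5
      show (four (2 * x - b) + b) / 4 ∈ A
      rw [← h5]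
      exact h2
    · rintro ⟨h2, h4⟩
      have h3 : x ∈ Ico ((b : ℝ) / 2) ((b + 1) / 2) := by
        rw [mem_Ico] at h4 ⊢
        constructor <;> linarith [h4.1, h4.2]
      refine ⟨?_, h3⟩
      have h5 := four_half _ h4 b hb
      rw [show (2 * x - (b : ℝ) + b) / 2 = x by ring] at h5
      show four x ∈ A
      rw [h5]
      exact h2
  rw [h1, vol_affine 2 b (by norm_num)]
  congr 1
  rw [abs_of_pos (by norm_num), ENNReal.ofReal_inv_of_pos (by norm_num)]
  norm_num

theorem nu : S_Nu := by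
  have hap : ∀ A : Set ℝ, MeasurableSet A →
      Measure.map four (volume.restrict (Ico (0 : ℝ) 1)) A = volume (four ⁻¹' A ∩ Ico 0 1) := by
    intro A hA
    rw [Measure.map_apply four_meas hA, Measure.restrict_apply (four_meas hA)]
  refine ⟨Measure.map four (volume.restrict (Ico (0 : ℝ) 1)), ?_, ?_, ?_, ?_⟩
  · refine ⟨?_⟩
    rw [hap _ MeasurableSet.univ]
    simp
  · rw [hap _ measurableSet_Icc.compl]
    have : four ⁻¹' (Icc 0 (1 / 3))ᶜ = ∅ := by
      ext t
      simp only [mem_preimage, mem_compl_iff, mem_Icc, mem_empty_iff_false, iff_false, not_not]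
      exact ⟨four_nonneg t, four_le t⟩
    rw [this]
    simp
  · intro A hA
    have m0 : MeasurableSet {v : ℝ | v / 4 ∈ A} := (measurable_id.div_const 4) hA
    have m1 : MeasurableSet {v : ℝ | (v + 1) / 4 ∈ A} :=
      ((measurable_id.add_const 1).div_const 4) hA
    rw [hap A hA, hap _ m0, hap _ m1]
    have hs : four ⁻¹' A ∩ Ico (0 : ℝ) 1 = (four ⁻¹' A ∩ Ico (((0 : ℤ) : ℝ) / 2) (((0 : ℤ) + 1) / 2))
        ∪ (four ⁻¹' A ∩ Ico (((1 : ℤ) : ℝ) / 2) (((1 : ℤ) + 1) / 2)) := by
      rw [← inter_union_distrib_left]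
      congr 1
      push_cast
      rw [show (0 : ℝ) / 2 = 0 by norm_num, show ((0 : ℝ) + 1) / 2 = 1 / 2 by norm_num,
        show ((1 : ℝ) + 1) / 2 = 1 by norm_num, Ico_union_Ico_eq_Ico] <;> norm_num
    rw [hs, measure_union, half_part A 0 (Or.inl rfl), half_part A 1 (Or.inr rfl)]
    · simp [preimage]
    · rw [Set.disjoint_left]
      rintro x ⟨-, h1⟩ ⟨-, h2⟩
      rw [mem_Ico] at h1 h2
      push_cast at h1 h2
      linarith [h1.2, h2.1]
    · exact (four_meas hA).inter measurableSet_Ico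
  · set D₀ : Set ℝ := four '' Ico 0 1 with hD
    have hsub : D₀ ⊆ {x : ℝ | 4 * x - 0 ∈ D₀} ∪ {x : ℝ | 4 * x - 1 ∈ D₀} := by
      rintro _ ⟨x, hx, rfl⟩
      rw [mem_Ico] at hx
      rcases lt_or_ge x (1 / 2) with h | h
      · left
        have ht : 2 * x ∈ Ico (0 : ℝ) 1 := ⟨by linarith [hx.1], by linarith⟩
        have h5 := four_half (2 * x) ht 0 (Or.inl rfl)
        refine ⟨2 * x, ht, ?_⟩
        push_cast at h5
        rw [show (2 * x + 0) / 2 = x by ring] at h5
        rw [h5]; ring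
      · right
        have ht : 2 * x - 1 ∈ Ico (0 : ℝ) 1 := ⟨by linarith [hx.1], by linarith [hx.2]⟩
        have h5 := four_half (2 * x - 1) ht 1 (Or.inr rfl)
        refine ⟨2 * x - 1, ht, ?_⟩
        push_cast at h5
        rw [show (2 * x - 1 + 1) / 2 = x by ring] at h5
        rw [h5]; ring
    have hfin : volume D₀ ≠ ⊤ := by
      have : D₀ ⊆ Icc 0 (1 / 3) := by
        rintro _ ⟨x, -, rfl⟩
        exact ⟨four_nonneg x, four_le x⟩
      exact ne_top_of_le_ne_top (by simp) (measure_mono this)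
    have hle : volume D₀ ≤ 2⁻¹ * volume D₀ := by
      calc volume D₀ ≤ volume {x : ℝ | 4 * x - 0 ∈ D₀} + volume {x : ℝ | 4 * x - 1 ∈ D₀} :=
            (measure_mono hsub).trans (measure_union_le _ _)
        _ = 2⁻¹ * volume D₀ := by
            rw [vol_affine 4 0 (by norm_num), vol_affine 4 1 (by norm_num), ← add_mul,
              ← ENNReal.ofReal_add (abs_nonneg _) (abs_nonneg _)]
            congr 1
            rw [abs_of_pos (by norm_num)]
            rw [show (4 : ℝ)⁻¹ + 4⁻¹ = 2⁻¹ by norm_num, ENNReal.ofReal_inv_of_pos (by norm_num)]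
            norm_num
    have hz : volume D₀ = 0 := by
      by_contra hne
      have h2 : 2⁻¹ * volume D₀ < volume D₀ := by
        have := ENNReal.half_lt_self hne hfin
        rwa [ENNReal.div_eq_inv_mul] at this
      exact absurd hle (not_le.mpr h2)
    refine ⟨toMeasurable volume D₀, measurableSet_toMeasurable _ _, ?_, ?_⟩
    · rw [measure_toMeasurable, hz]
    · rw [hap _ (measurableSet_toMeasurable _ _).compl]
      have : four ⁻¹' (toMeasurable volume D₀)ᶜ ∩ Ico 0 1 = ∅ := by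
        ext t
        simp only [mem_inter_iff, mem_preimage, mem_compl_iff, mem_empty_iff_false, iff_false,
          not_and]
        intro h1 h2
        exact h1 (subset_toMeasurable _ _ ⟨t, h2, rfl⟩)
      rw [this]
      simp

end Pool.Agent.Q298.PS
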