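import Pool.Agent.Q187.PS.Stm

set_option autoImplicit false

open MeasureTheory Set Filter Topology Metric
open scoped ENNReal NNReal

namespace Pool.Agent.Q298.PS

open Q187.PS ProbabilityTheory

theorem cdf_cont (ν : Measure ℝ) [IsProbabilityMeasure ν] (h : ∀ v : ℝ, ν {v} = 0) :
    Continuous (cdf ν) := by
  rw [continuous_iff_continuousAt]
  intro x
  rw [(monotone_cdf ν).continuousAt_iff_leftLim_eq_rightLim, StieltjesFunction.rightLim_eq]
  have h1 : (cdf ν).measure {x} = 0 := by rw [measure_cdf]; exact h x
  rw [StieltjesFunction.measure_singleton, ENNReal.ofReal_eq_zero, sub_nonpos] at h1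
  exact le_antisymm ((monotone_cdf ν).leftLim_le le_rfl) h1

/-- The spreading function. -/
theorem sprd : S_Sprd := by
  intro ν hD hat
  have := hD.prob
  have hF := cdf_cont ν hat
  set F : ℝ → ℝ := fun v => cdf ν v with hFdef
  have hF0 : ∀ v, 0 ≤ F v := fun v => cdf_nonneg ν v
  have hF1 : ∀ v, F v ≤ 1 := fun v => cdf_le_one ν v
  have hFm : Monotone F := monotone_cdf ν
  set γ : ℝ → ℝ := fun v => v + F v with hγ
  have hγc : Continuous γ := continuous_id.add hF
  have hγm : StrictMono γ := fun a b hab => add_lt_add_of_lt_of_le hab (hFm hab.le)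
  have hγs : Function.Surjective γ := by
    refine hγc.surjective ?_ ?_
    · exact tendsto_atTop_mono (fun v => by show v ≤ v + F v; linarith [hF0 v]) tendsto_id
    · refine tendsto_atBot_mono (fun v => (by linarith [hF1 v] : v + F v ≤ v + 1)) ?_
      exact tendsto_atBot_add_const_right _ _ tendsto_id
  set e : ℝ ≃o ℝ := StrictMono.orderIsoOfSurjective γ hγm hγs with he
  have hev : ∀ v, e v = γ v := fun v => rfl
  have hlip0 : ∀ x y : ℝ, x ≤ y → e.symm y - e.symm x ≤ y - x := by
    intro x y hxy
    have h1 : e.symm x ≤ e.symm y := e.symm.monotone hxy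
    have h2 : γ (e.symm y) - γ (e.symm x) ≥ e.symm y - e.symm x := by
      have := hFm h1
      show (e.symm y + F (e.symm y)) - (e.symm x + F (e.symm x)) ≥ _
      linarith
    rw [← hev, ← hev, e.apply_symm_apply, e.apply_symm_apply] at h2
    linarith
  refine ⟨e.symm, ?_, ?_, ?_, ?_⟩
  · intro x y
    rcases le_total x y with h | h
    · have h1 : e.symm x ≤ e.symm y := e.symm.monotone h
      rw [abs_sub_comm, abs_sub_comm x y, abs_of_nonneg (by linarith), abs_of_nonneg (by linarith)]
      exact hlip0 x y h
    · have h1 : e.symm y ≤ e.symm x := e.symm.monotone h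
      rw [abs_of_nonneg (by linarith), abs_of_nonneg (by linarith)]
      exact hlip0 y x h
  · intro x
    have h1 : e (e.symm x) = x := e.apply_symm_apply x
    rw [hev] at h1
    have h2 : e.symm x + F (e.symm x) = x := h1
    rw [abs_le]
    constructor <;> linarith [hF0 (e.symm x), hF1 (e.symm x)]
  · exact e.symm.injective
  · have hmeas : Measurable e.symm := e.symm.continuous.measurable
    have hlf : IsLocallyFiniteMeasure (volume + ν : Measure ℝ) := by
      refine ⟨fun x => ⟨Ioo (x - 1) (x + 1), Ioo_mem_nhds (by linarith) (by linarith), ?_⟩⟩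
      rw [Measure.add_apply]
      refine ENNReal.add_lt_top.mpr ⟨?_, measure_lt_top _ _⟩
      rw [Real.volume_Ioo]
      exact ENNReal.ofReal_lt_top
    symm
    refine Measure.ext_of_Ioc _ _ ?_
    intro u v huv
    rw [Measure.map_apply hmeas measurableSet_Ioc, Measure.add_apply, Real.volume_Ioc]
    have h1 : e.symm ⁻¹' Ioc u v = Ioc (e u) (e v) := by
      ext x
      rw [mem_preimage, mem_Ioc, mem_Ioc, OrderIso.lt_symm_apply, OrderIso.symm_apply_le]
    rw [h1, Real.volume_Ioc]
    have h2 : ν (Ioc u v) = ENNReal.ofReal (F v - F u) := by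
      conv_lhs => rw [← measure_cdf ν]
      rw [StieltjesFunction.measure_Ioc]
    rw [h2, ← ENNReal.ofReal_add (by linarith) (by linarith [hFm huv.le])]
    congr 1
    rw [hev, hev]
    show (v - u) + (F v - F u) = (v + F v) - (u + F u)
    ring

end Pool.Agent.Q298.PS
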