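import Pool.Agent.Q187.PS.Stm

set_option autoImplicit false

open MeasureTheory Set Filter Topology Metric
open scoped ENNReal NNReal

namespace Pool.Agent.Q298.PS

open Q187.PS

/-- Self-similarity as an equality of measures. -/
theorem self_measure (ν : Measure ℝ) (h : Dig ν) :
    ν = (2⁻¹ : ℝ≥0∞) • Measure.map (fun v => v / 4) ν
      + (2⁻¹ : ℝ≥0∞) • Measure.map (fun v => (v + 1) / 4) ν := by
  have m0 : Measurable (fun v : ℝ => v / 4) := measurable_id.div_const 4
  have m1 : Measurable (fun v : ℝ => (v + 1) / 4) := (measurable_id.add_const 1).div_const 4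
  ext A hA
  rw [Measure.add_apply, Measure.smul_apply, Measure.smul_apply, Measure.map_apply m0 hA,
    Measure.map_apply m1 hA, smul_eq_mul, smul_eq_mul]
  exact h.self A hA

theorem self_lintegral (ν : Measure ℝ) (h : Dig ν) (f : ℝ → ℝ≥0∞) (hf : Measurable f) :
    ∫⁻ x, f x ∂ν = 2⁻¹ * ∫⁻ x, f (x / 4) ∂ν + 2⁻¹ * ∫⁻ x, f ((x + 1) / 4) ∂ν := by
  have m0 : Measurable (fun v : ℝ => v / 4) := measurable_id.div_const 4
  have m1 : Measurable (fun v : ℝ => (v + 1) / 4) := (measurable_id.add_const 1).div_const 4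
  conv_lhs => rw [self_measure ν h]
  rw [lintegral_add_measure, lintegral_smul_measure, lintegral_smul_measure,
    lintegral_map hf m0, lintegral_map hf m1, smul_eq_mul, smul_eq_mul]

/-- The distribution of `2 x + y`. -/
noncomputable def QQ (ν : Measure ℝ) (s : ℝ) : ℝ := ((ν.prod ν) {p | 2 * p.1 + p.2 ≤ s}).toReal

theorem meas_lin : Measurable (fun p : ℝ × ℝ => 2 * p.1 + p.2) :=
  (measurable_fst.const_mul 2).add measurable_snd

theorem QQ_ennreal (ν : Measure ℝ) (h : Dig ν) (s : ℝ) :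
    (ν.prod ν) {p | 2 * p.1 + p.2 ≤ s} = 4⁻¹ * ((ν.prod ν) {p | 2 * p.1 + p.2 ≤ 4 * s}
      + (ν.prod ν) {p | 2 * p.1 + p.2 ≤ 4 * s - 1} + (ν.prod ν) {p | 2 * p.1 + p.2 ≤ 4 * s - 2}
      + (ν.prod ν) {p | 2 * p.1 + p.2 ≤ 4 * s - 3}) := by
  have := h.prob
  have hm : ∀ s : ℝ, MeasurableSet {p : ℝ × ℝ | 2 * p.1 + p.2 ≤ s} := fun s =>
    measurableSet_le meas_lin measurable_const
  have happ : ∀ s : ℝ, (ν.prod ν) {p | 2 * p.1 + p.2 ≤ s} = ∫⁻ x, ν {y | 2 * x + y ≤ s} ∂ν := by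
    intro s
    rw [Measure.prod_apply (hm s)]
    rfl
  have hmeas : ∀ s : ℝ, Measurable (fun x : ℝ => ν {y | 2 * x + y ≤ s}) := fun s =>
    measurable_measure_prodMk_left (hm s)
  have hin : ∀ x : ℝ, ν {y | 2 * x + y ≤ s} = 2⁻¹ * ν {y | 2 * (4 * x) + y ≤ 4 * s}
      + 2⁻¹ * ν {y | 2 * (4 * x) + y ≤ 4 * s - 1} := by
    intro x
    have hmx : MeasurableSet {y : ℝ | 2 * x + y ≤ s} :=
      measurableSet_le (measurable_id.const_add _) measurable_const
    rw [h.self _ hmx]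
    have e1 : {v : ℝ | v / 4 ∈ {y : ℝ | 2 * x + y ≤ s}} = {y | 2 * (4 * x) + y ≤ 4 * s} := by
      ext v; simp only [mem_ofPred_eq]; constructor <;> intro hh <;> linarith
    have e2 : {v : ℝ | (v + 1) / 4 ∈ {y : ℝ | 2 * x + y ≤ s}}
        = {y | 2 * (4 * x) + y ≤ 4 * s - 1} := by
      ext v; simp only [mem_ofPred_eq]; constructor <;> intro hh <;> linarith
    rw [e1, e2]
  have hout : ∀ t : ℝ, ∫⁻ x, ν {y | 2 * (4 * x) + y ≤ t} ∂ν
      = 2⁻¹ * (ν.prod ν) {p | 2 * p.1 + p.2 ≤ t} + 2⁻¹ * (ν.prod ν) {p | 2 * p.1 + p.2 ≤ t - 2} := by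
    intro t
    have hmf : Measurable (fun x : ℝ => ν {y | 2 * (4 * x) + y ≤ t}) :=
      (hmeas t).comp (measurable_const_mul (4 : ℝ))
    rw [self_lintegral ν h (fun x => ν {y | 2 * (4 * x) + y ≤ t}) hmf, happ, happ]
    congr 1
    · congr 1
      refine lintegral_congr fun x => ?_
      rw [show 4 * (x / 4) = x by ring]
    · congr 1
      refine lintegral_congr fun x => ?_
      congr 1
      ext y
      simp only [mem_ofPred_eq]
      constructor <;> intro hh <;> linarith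
  rw [happ s]
  simp only [hin]
  have hms4 : ∀ t : ℝ, Measurable (fun x : ℝ => ν {y | 2 * (4 * x) + y ≤ t}) := fun t =>
    (hmeas t).comp (measurable_const_mul (4 : ℝ))
  rw [lintegral_add_left ((hms4 (4 * s)).const_mul _),
    lintegral_const_mul _ (hms4 (4 * s)),
    lintegral_const_mul _ (hms4 (4 * s - 1)), hout, hout,
    show 4 * s - 1 - 2 = 4 * s - 3 by ring]
  have e4 : (4 : ℝ≥0∞)⁻¹ = 2⁻¹ * 2⁻¹ := by
    rw [← ENNReal.mul_inv (by norm_num) (by norm_num)]
    norm_num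
  rw [e4]
  ring

theorem QQ_self (ν : Measure ℝ) (h : Dig ν) (s : ℝ) :
    QQ ν s = (QQ ν (4 * s) + QQ ν (4 * s - 1) + QQ ν (4 * s - 2) + QQ ν (4 * s - 3)) / 4 := by
  have := h.prob
  unfold QQ
  have hf : ∀ S : Set (ℝ × ℝ), (ν.prod ν) S ≠ ⊤ := fun S => measure_ne_top _ _
  rw [QQ_ennreal ν h s, ENNReal.toReal_mul, ENNReal.toReal_add (by simp [hf]) (hf _),
    ENNReal.toReal_add (by simp [hf]) (hf _), ENNReal.toReal_add (hf _) (hf _)]
  have : (4⁻¹ : ℝ≥0∞).toReal = 4⁻¹ := by simp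
  rw [this]
  ring

theorem QQ_supp (ν : Measure ℝ) (h : Dig ν) :
    (∀ᵐ p ∂(ν.prod ν), 0 ≤ 2 * p.1 + p.2 ∧ 2 * p.1 + p.2 ≤ 1) := by
  have := h.prob
  have h1 : ∀ᵐ x ∂ν, x ∈ Icc (0 : ℝ) (1 / 3) := h.supp
  have h2 : ∀ᵐ p ∂(ν.prod ν), p.1 ∈ Icc (0 : ℝ) (1 / 3) :=
    Measure.quasiMeasurePreserving_fst.ae h1
  have h3 : ∀ᵐ p ∂(ν.prod ν), p.2 ∈ Icc (0 : ℝ) (1 / 3) :=
    Measure.quasiMeasurePreserving_snd.ae h1
  filter_upwards [h2, h3] with p hp1 hp2
  rw [mem_Icc] at hp1 hp2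
  constructor <;> linarith [hp1.1, hp1.2, hp2.1, hp2.2]

theorem QQ_neg (ν : Measure ℝ) (h : Dig ν) (s : ℝ) (hs : s < 0) : QQ ν s = 0 := by
  have := h.prob
  unfold QQ
  have : (ν.prod ν) {p | 2 * p.1 + p.2 ≤ s} = 0 := by
    rw [← compl_compl {p : ℝ × ℝ | 2 * p.1 + p.2 ≤ s}]
    rw [← mem_ae_iff]
    filter_upwards [QQ_supp ν h] with p hp
    simp only [mem_compl_iff, mem_ofPred_eq, not_le]
    linarith [hp.1]
  rw [this]
  simp

theorem QQ_one (ν : Measure ℝ) (h : Dig ν) (s : ℝ) (hs : 1 ≤ s) : QQ ν s = 1 := by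
  have := h.prob
  unfold QQ
  have : (ν.prod ν) {p | 2 * p.1 + p.2 ≤ s} = 1 := by
    rw [← mem_ae_iff_prob_eq_one (measurableSet_le meas_lin measurable_const)]
    filter_upwards [QQ_supp ν h] with p hp
    exact hp.2.trans hs
  rw [this]
  simp

/-- The uniform distribution function. -/
noncomputable def UU (s : ℝ) : ℝ := max 0 (min 1 s)

theorem UU_neg (s : ℝ) (hs : s ≤ 0) : UU s = 0 := by
  unfold UU
  rw [max_eq_left]
  exact (min_le_right _ _).trans hs

theorem UU_one (s : ℝ) (hs : 1 ≤ s) : UU s = 1 := by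
  unfold UU
  rw [min_eq_left hs, max_eq_right zero_le_one]

theorem UU_mid (s : ℝ) (h0 : 0 ≤ s) (h1 : s ≤ 1) : UU s = s := by
  unfold UU
  rw [min_eq_right h1, max_eq_right h0]

theorem UU_self (s : ℝ) :
    UU s = (UU (4 * s) + UU (4 * s - 1) + UU (4 * s - 2) + UU (4 * s - 3)) / 4 := by
  rcases le_or_gt s 0 with h | h
  · rw [UU_neg s h, UU_neg _ (by linarith), UU_neg _ (by linarith), UU_neg _ (by linarith),
      UU_neg _ (by linarith)]
    norm_num
  rcases le_or_gt s (1 / 4) with h1 | h1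
  · rw [UU_mid s h.le (by linarith), UU_mid (4 * s) (by linarith) (by linarith),
      UU_neg _ (by linarith), UU_neg _ (by linarith), UU_neg _ (by linarith)]
    ring
  rcases le_or_gt s (2 / 4) with h2 | h2
  · rw [UU_mid s h.le (by linarith), UU_one (4 * s) (by linarith),
      UU_mid (4 * s - 1) (by linarith) (by linarith), UU_neg _ (by linarith),
      UU_neg _ (by linarith)]
    ring
  rcases le_or_gt s (3 / 4) with h3 | h3
  · rw [UU_mid s h.le (by linarith), UU_one (4 * s) (by linarith),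
      UU_one (4 * s - 1) (by linarith),
      UU_mid (4 * s - 2) (by linarith) (by linarith), UU_neg _ (by linarith)]
    ring
  rcases le_or_gt s 1 with h4 | h4
  · rw [UU_mid s h.le (by linarith), UU_one (4 * s) (by linarith),
      UU_one (4 * s - 1) (by linarith), UU_one (4 * s - 2) (by linarith),
      UU_mid (4 * s - 3) (by linarith) (by linarith)]
    ring
  · rw [UU_one s h4.le, UU_one (4 * s) (by linarith),
      UU_one (4 * s - 1) (by linarith), UU_one (4 * s - 2) (by linarith),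
      UU_one (4 * s - 3) (by linarith)]
    norm_num

theorem QQ_bounds (ν : Measure ℝ) (h : Dig ν) (s : ℝ) : 0 ≤ QQ ν s ∧ QQ ν s ≤ 1 := by
  have := h.prob
  unfold QQ
  refine ⟨ENNReal.toReal_nonneg, ?_⟩
  exact ENNReal.toReal_le_of_le_ofReal zero_le_one (by simpa using prob_le_one)

theorem QQ_eq (ν : Measure ℝ) (h : Dig ν) (s : ℝ) : QQ ν s = UU s := by
  have h0 : ∀ x : ℝ, (x < 0 ∨ 1 ≤ x) → |QQ ν x - UU x| = 0 := by
    intro x hx
    rcases hx with hx | hx
    · rw [QQ_neg ν h x hx, UU_neg x hx.le]; simp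
    · rw [QQ_one ν h x hx, UU_one x hx]; simp
  have key : ∀ n : ℕ, ∀ x : ℝ, |QQ ν x - UU x| ≤ (1 / 4) ^ n := by
    intro n
    induction n with
    | zero =>
      intro x
      have h1 := QQ_bounds ν h x
      have h2 : 0 ≤ UU x ∧ UU x ≤ 1 := by
        unfold UU
        exact ⟨le_max_left _ _, max_le zero_le_one (min_le_left _ _)⟩
      rw [pow_zero, abs_le]
      constructor <;> linarith [h1.1, h1.2, h2.1, h2.2]
    | succ n ih =>
      intro x
      have e1 : |QQ ν x - UU x| ≤ (1 / 4) * (|QQ ν (4 * x) - UU (4 * x)|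
          + |QQ ν (4 * x - 1) - UU (4 * x - 1)| + |QQ ν (4 * x - 2) - UU (4 * x - 2)|
          + |QQ ν (4 * x - 3) - UU (4 * x - 3)|) := by
        rw [QQ_self ν h x, UU_self x]
        have e2 : (QQ ν (4 * x) + QQ ν (4 * x - 1) + QQ ν (4 * x - 2) + QQ ν (4 * x - 3)) / 4
            - (UU (4 * x) + UU (4 * x - 1) + UU (4 * x - 2) + UU (4 * x - 3)) / 4
            = (1 / 4) * ((QQ ν (4 * x) - UU (4 * x)) + (QQ ν (4 * x - 1) - UU (4 * x - 1))
              + (QQ ν (4 * x - 2) - UU (4 * x - 2)) + (QQ ν (4 * x - 3) - UU (4 * x - 3))) := by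
          ring
        rw [e2, abs_mul, abs_of_pos (by norm_num : (0 : ℝ) < 1 / 4)]
        refine mul_le_mul_of_nonneg_left ?_ (by norm_num)
        refine (abs_add_le _ _).trans (add_le_add ?_ le_rfl)
        refine (abs_add_le _ _).trans (add_le_add ?_ le_rfl)
        exact abs_add_le _ _
      refine e1.trans ?_
      have hpow : ((1 : ℝ) / 4) ^ (n + 1) = (1 / 4) * (1 / 4) ^ n := by ring
      rw [hpow]
      refine mul_le_mul_of_nonneg_left ?_ (by norm_num)
      have hn : (0 : ℝ) ≤ (1 / 4) ^ n := by positivity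
      rcases lt_or_ge (4 * x) 0 with c0 | c0
      · rw [h0 (4 * x) (by left; linarith), h0 (4 * x - 1) (by left; linarith),
          h0 (4 * x - 2) (by left; linarith), h0 (4 * x - 3) (by left; linarith)]
        linarith
      rcases lt_or_ge (4 * x) 1 with c1 | c1
      · rw [h0 (4 * x - 1) (by left; linarith),
          h0 (4 * x - 2) (by left; linarith), h0 (4 * x - 3) (by left; linarith)]
        linarith [ih (4 * x)]
      rcases lt_or_ge (4 * x) 2 with c2 | c2
      · rw [h0 (4 * x) (by right; linarith),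
          h0 (4 * x - 2) (by left; linarith), h0 (4 * x - 3) (by left; linarith)]
        linarith [ih (4 * x - 1)]
      rcases lt_or_ge (4 * x) 3 with c3 | c3
      · rw [h0 (4 * x) (by right; linarith), h0 (4 * x - 1) (by right; linarith),
          h0 (4 * x - 3) (by left; linarith)]
        linarith [ih (4 * x - 2)]
      · rw [h0 (4 * x) (by right; linarith), h0 (4 * x - 1) (by right; linarith),
          h0 (4 * x - 2) (by right; linarith)]
        linarith [ih (4 * x - 3)]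
  have hlim : Tendsto (fun n : ℕ => ((1 : ℝ) / 4) ^ n) atTop (𝓝 0) :=
    tendsto_pow_atTop_nhds_zero_of_lt_one (by norm_num) (by norm_num)
  have h1 : |QQ ν s - UU s| ≤ 0 := ge_of_tendsto' hlim fun n => key n s
  have h2 : QQ ν s - UU s = 0 := abs_nonpos_iff.mp h1
  linarith

theorem UU_lip (a b : ℝ) (hab : a ≤ b) : UU b - UU a ≤ b - a := by
  unfold UU
  rcases le_total 1 b with h1 | h1 <;> rcases le_total 1 a with h2 | h2 <;>
  rcases le_total 0 a with h3 | h3 <;> rcases le_total 0 b with h4 | h4 <;>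
  simp_all <;> linarith

/-- The measure `2ν * ν` is uniform, and `ν` has no atoms. -/
theorem sum : S_Sum := by
  intro ν h
  have := h.prob
  have hfirst : ∀ a b : ℝ, a ≤ b →
      (ν.prod ν) {p | a < 2 * p.1 + p.2 ∧ 2 * p.1 + p.2 ≤ b} ≤ ENNReal.ofReal (b - a) := by
    intro a b hab
    have hm : ∀ s : ℝ, MeasurableSet {p : ℝ × ℝ | 2 * p.1 + p.2 ≤ s} := fun s =>
      measurableSet_le meas_lin measurable_const
    have e1 : {p : ℝ × ℝ | a < 2 * p.1 + p.2 ∧ 2 * p.1 + p.2 ≤ b}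
        = {p : ℝ × ℝ | 2 * p.1 + p.2 ≤ b} \ {p : ℝ × ℝ | 2 * p.1 + p.2 ≤ a} := by
      ext p
      simp only [mem_ofPred_eq, Set.mem_sdiff, not_le]
      exact and_comm
    have hsub : {p : ℝ × ℝ | 2 * p.1 + p.2 ≤ a} ⊆ {p : ℝ × ℝ | 2 * p.1 + p.2 ≤ b} := by
      intro p hp
      exact le_trans hp hab
    rw [e1, measure_sdiff hsub (hm a).nullMeasurableSet (measure_ne_top _ _)]
    have e2 : ∀ s : ℝ, (ν.prod ν) {p | 2 * p.1 + p.2 ≤ s} = ENNReal.ofReal (UU s) := by
      intro s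
      rw [← QQ_eq ν h s]
      unfold QQ
      rw [ENNReal.ofReal_toReal (measure_ne_top _ _)]
    rw [e2, e2, ← ENNReal.ofReal_sub _ (show 0 ≤ UU a from le_max_left _ _)]
    exact ENNReal.ofReal_le_ofReal (UU_lip a b hab)
  refine ⟨hfirst, ?_⟩
  intro v
  have h1 : ∀ ε : ℝ, 0 < ε → ν {v} * ν {v} ≤ ENNReal.ofReal ε := by
    intro ε hε
    rw [← Measure.prod_prod]
    refine (measure_mono ?_).trans ((hfirst (3 * v - ε) (3 * v) (by linarith)).trans ?_)
    · rintro ⟨x, y⟩ ⟨hx, hy⟩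
      simp only [mem_singleton_iff] at hx hy
      show 3 * v - ε < 2 * x + y ∧ 2 * x + y ≤ 3 * v
      rw [hx, hy]
      constructor <;> linarith
    · apply ENNReal.ofReal_le_ofReal
      linarith
  have h2 : ν {v} * ν {v} = 0 := by
    by_contra hne
    have hpos : 0 < ν {v} * ν {v} := pos_iff_ne_zero.mpr hne
    have hfin : ν {v} * ν {v} ≠ ⊤ := ENNReal.mul_ne_top (measure_ne_top _ _) (measure_ne_top _ _)
    have h3 := h1 ((ν {v} * ν {v}).toReal / 2) (by
      have := ENNReal.toReal_pos hne hfin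
      linarith)
    have h4 := ENNReal.toReal_mono (by simp) h3
    rw [ENNReal.toReal_ofReal (by positivity)] at h4
    have := ENNReal.toReal_pos hne hfin
    linarith
  exact mul_self_eq_zero.mp h2

end Pool.Agent.Q298.PS
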