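import Pool.Agent.Q187.PS.Stm

set_option autoImplicit false

open MeasureTheory Set Filter Topology Metric
open scoped ENNReal NNReal

namespace Pool.Agent.Q298.PS

open Q187.PS

theorem spread_lip {ν : Measure ℝ} {β : ℝ → ℝ} (h : Spread ν β) : LipschitzWith 1 β := by
  refine LipschitzWith.of_dist_le_mul fun x y => ?_
  rw [Real.dist_eq, Real.dist_eq, NNReal.coe_one, one_mul]
  exact h.lip x y

/-- The derivative of `β` vanishes on a set of length one. -/
theorem zero : S_Zero := by
  intro ν β hD hS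
  have := hD.prob
  obtain ⟨D, hDm, hD0, hD1⟩ := hD.sing
  have hlip := spread_lip hS
  have hmeas : Measurable β := hlip.continuous.measurable
  have hIcc : MeasurableSet (Icc (0 : ℝ) (1 / 3)) := measurableSet_Icc
  set A : Set ℝ := β ⁻¹' (D ∩ Icc 0 (1 / 3)) with hA
  have hAm : MeasurableSet A := hmeas (hDm.inter hIcc)
  have hν1 : ν (D ∩ Icc 0 (1 / 3)) = 1 := by
    have h1 : ν (D ∩ Icc 0 (1 / 3))ᶜ = 0 := by
      rw [compl_inter]
      exact measure_union_null hD1 hD.supp
    rw [prob_compl_eq_zero_iff (hDm.inter hIcc)] at h1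
    exact h1
  have hvolA : volume A = 1 := by
    rw [hA, ← Measure.map_apply hmeas (hDm.inter hIcc), hS.map, Measure.add_apply, hν1,
      measure_mono_null inter_subset_left hD0, zero_add]
  set A₁ : Set ℝ := A ∩ {x | DifferentiableAt ℝ β x} with hA1
  have hA1m : MeasurableSet A₁ := hAm.inter (measurableSet_of_differentiableAt ℝ β)
  have hae : ∀ᵐ x : ℝ, DifferentiableAt ℝ β x := hlip.ae_differentiableAt
  have hint : ∫⁻ x in A₁, ENNReal.ofReal |deriv β x| = 0 := by
    have h1 := lintegral_image_eq_lintegral_abs_deriv_mul (f := β) (f' := deriv β) hA1m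
      (fun x hx => hx.2.hasDerivAt.hasDerivWithinAt) (hS.inj.injOn) (fun _ => 1)
    simp only [mul_one, lintegral_const, one_mul, Measure.restrict_apply_univ] at h1
    rw [← h1]
    refine measure_mono_null ?_ hD0
    rintro _ ⟨x, hx, rfl⟩
    exact hx.1.1
  have hdm : Measurable (deriv β) := measurable_deriv β
  have hz : ∀ᵐ x ∂(volume.restrict A₁), deriv β x = 0 := by
    rw [lintegral_eq_zero_iff (hdm.abs.ennreal_ofReal)] at hint
    filter_upwards [hint] with x hx
    have h2 : ENNReal.ofReal |deriv β x| = 0 := hx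
    rw [ENNReal.ofReal_eq_zero] at h2
    exact abs_nonpos_iff.mp h2
  rw [ae_restrict_iff' hA1m] at hz
  refine ⟨A₁ ∩ {x | deriv β x = 0}, hA1m.inter (hdm (measurableSet_singleton 0)), ?_, ?_⟩
  · rw [← hvolA]
    refine measure_congr ?_
    filter_upwards [hz, hae] with x h1 h2
    apply propext
    constructor
    · intro h3
      exact h3.1.1
    · intro h3
      exact ⟨⟨h3, h2⟩, h1 ⟨h3, h2⟩⟩
  · rintro x ⟨⟨h1, h2⟩, h3⟩
    refine ⟨h1.2, ?_⟩
    have h4 : HasDerivAt β (deriv β x) x := DifferentiableAt.hasDerivAt h2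
    rw [mem_ofPred_eq] at h3
    rwa [h3] at h4

end Pool.Agent.Q298.PS
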